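import Pool.Agent.TH583.FO.Main

/-!
# Averaging over the 2-factors of a bridgeless cubic graph, with weights of edges and of circuits
-/

set_option autoImplicit false
set_option linter.unusedSectionVars false

namespace Pool.Agent.Q253.OC

open Finset Pool.Agent.H160R2.HF Pool.Agent.TH583.FO

variable {V E : Type} [Fintype V] [Fintype E] [DecidableEq V] [DecidableEq E]

/-- **Averaging.** -/
theorem avg2 (G : OrGraph V E) (hc : G.Cubic) (hb : G.Bridgeless) (Z : Finset (Finset V))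
    (hZ : ∀ S ∈ Z, Odd S.card) (y : Finset V → ℝ) (hy : ∀ S, 0 ≤ y S) (w : E → ℝ)
    (hw : ∀ e, 0 ≤ w e) :
    ∃ F : Finset E, G.IsTwoFactor F ∧
      (∀ X : Finset V, (G.cut X).card = 3 → (G.cut X ∩ F).Nonempty) ∧
      ∑ e ∈ F, w e + ∑ S ∈ Z.filter (fun S => G.cut S ∩ F = ∅), y S ≤ 2 / 3 * ∑ e, w e +
        ∑ S ∈ Z, y S * ((((G.cut S).card : ℝ) - 3) / (3 * ((G.cut S).card - 1))) := by
  classical
  obtain ⟨R, hR⟩ : ∃ R : ℝ, R = ∑ S ∈ Z,
    y S * ((((G.cut S).card : ℝ) - 3) / (3 * ((G.cut S).card - 1))) := ⟨_, rfl⟩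
  obtain ⟨Q, hQ⟩ : ∃ Q : ℝ, Q = 2 / 3 * ∑ e, w e + R := ⟨_, rfl⟩
  rw [← hR, ← hQ]
  obtain ⟨T, hT⟩ : ∃ T : Finset (Finset V), T = univ.filter fun X => (G.cut X).card = 3 := ⟨_, rfl⟩
  obtain ⟨a, ha⟩ : ∃ a : Finset V → ℝ, a = fun S => y S / ((G.cut S).card - 1) := ⟨_, rfl⟩
  have hTodd : ∀ X ∈ T, Odd X.card := by
    intro X hX
    rw [hT, Finset.mem_filter] at hX
    have h := G.handshake univ X
    rw [Finset.sum_congr rfl (fun v _ => hc v), Finset.sum_const, smul_eq_mul,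
      Finset.inter_univ, hX.2] at h
    by_contra hcon
    rw [Nat.not_odd_iff_even] at hcon
    obtain ⟨m, hm⟩ := hcon
    omega
  obtain ⟨M, hM, _, hcost⟩ := Pool.Agent.H249R2.PM.round (Fintype.card V) V rfl (even_card G hc)
    G.t G.h (fun _ => (1 / 3 : ℝ)) (fun e => ((∑ S ∈ Z, a S * (if e ∈ G.cut S then 1 else 0)) +
      (Q + 1) * ∑ X ∈ T, (if e ∈ G.cut X then (1 : ℝ) else 0)) - w e) (fr G hc hb)
  have hall : univ.filter (fun e => G.t e ≠ G.h e) = univ :=
    Finset.filter_true_of_mem fun e _ => noloop G hc hb e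
  rw [hall, ← Finset.sum_mul, Finset.sum_sub_distrib, Finset.sum_sub_distrib, sumc, sumc] at hcost
  simp only [Finset.inter_univ] at hcost
  have hT3 : ∑ X ∈ T, ((G.cut X).card : ℝ) = 3 * T.card := by
    rw [Finset.sum_congr rfl (fun X hX => ?_), Finset.sum_const, nsmul_eq_mul, mul_comm]
    rw [hT, Finset.mem_filter] at hX
    rw [hX.2]; norm_num
  have hd : ∀ S ∈ Z, (3 : ℝ) ≤ (G.cut S).card := fun S hS => by
    exact_mod_cast cut_three G hc hb S (hZ S hS)
  have hZavg : ∑ S ∈ Z, y S * ((((G.cut S).card : ℝ) - 3) / (3 * ((G.cut S).card - 1))) =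
      (∑ S ∈ Z, a S * ((G.cut S).card : ℝ)) * (1 / 3) - ∑ S ∈ Z, a S := by
    rw [Finset.sum_mul, ← Finset.sum_sub_distrib]
    refine Finset.sum_congr rfl fun S hS => ?_
    have h3 := hd S hS
    have h1 : ((G.cut S).card : ℝ) - 1 ≠ 0 := by
      intro h
      linarith
    rw [ha]
    field_simp
  have hR0 : 0 ≤ R := by
    rw [hR]
    refine Finset.sum_nonneg fun S hS => mul_nonneg (hy S) ?_
    have h3 := hd S hS
    exact div_nonneg (by linarith) (by linarith)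
  have hW0 : 0 ≤ ∑ e, w e := Finset.sum_nonneg fun e _ => hw e
  have hQ0 : 0 ≤ Q := by
    rw [hQ]
    linarith
  have hWM : ∑ e ∈ M, w e + ∑ e ∈ Mᶜ, w e = ∑ e, w e := Finset.sum_add_sum_compl M w
  have hF0 : 0 ≤ ∑ e ∈ Mᶜ, w e := Finset.sum_nonneg fun e _ => hw e
  have h1 : (∑ S ∈ Z, a S * (((G.cut S ∩ M).card : ℝ) - 1)) +
      (Q + 1) * ∑ X ∈ T, (((G.cut X ∩ M).card : ℝ) - 1) + ∑ e ∈ Mᶜ, w e ≤ Q := by
    have e1 : ∑ S ∈ Z, a S * (((G.cut S ∩ M).card : ℝ) - 1) =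
        ∑ S ∈ Z, a S * ((G.cut S ∩ M).card : ℝ) - ∑ S ∈ Z, a S := by
      rw [← Finset.sum_sub_distrib]
      exact Finset.sum_congr rfl fun S _ => by ring
    have e2 : ∑ X ∈ T, (((G.cut X ∩ M).card : ℝ) - 1) =
        ∑ X ∈ T, ((G.cut X ∩ M).card : ℝ) - T.card := by
      rw [Finset.sum_sub_distrib, Finset.sum_const, nsmul_eq_mul, mul_one]
    rw [e1, e2]
    rw [hT3] at hcost
    have e3 : (Q + 1) * (∑ X ∈ T, ((G.cut X ∩ M).card : ℝ) - T.card) =
        (Q + 1) * ∑ X ∈ T, ((G.cut X ∩ M).card : ℝ) - (Q + 1) * T.card := by ring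
    rw [e3]
    have e4 : R = (∑ S ∈ Z, a S * ((G.cut S).card : ℝ)) * (1 / 3) - ∑ S ∈ Z, a S := by
      rw [hR, hZavg]
    have e5 : (Q + 1) * (3 * (T.card : ℝ)) = 3 * ((Q + 1) * T.card) := by ring
    rw [e5] at hcost
    linarith
  have ha0 : ∀ S ∈ Z, 0 ≤ a S := by
    intro S hS
    rw [ha]
    exact div_nonneg (hy S) (by have := hd S hS; linarith)
  have hpos : ∀ S : Finset V, Odd S.card → (0 : ℝ) ≤ ((G.cut S ∩ M).card : ℝ) - 1 := by
    intro S hS
    have h : (1 : ℝ) ≤ (G.cut S ∩ M).card := by exact_mod_cast out_pos G hM S hS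
    linarith
  have hA : 0 ≤ ∑ S ∈ Z, a S * (((G.cut S ∩ M).card : ℝ) - 1) :=
    Finset.sum_nonneg fun S hS => mul_nonneg (ha0 S hS) (hpos S (hZ S hS))
  have hB : 0 ≤ ∑ X ∈ T, (((G.cut X ∩ M).card : ℝ) - 1) :=
    Finset.sum_nonneg fun X hX => hpos X (hTodd X hX)
  refine ⟨Mᶜ, ?_, ?_, ?_⟩
  · intro v
    have h1 := hc v
    have h2 := deg_pm G hM v
    unfold OrGraph.deg at h1 h2 ⊢
    have h3 : ∀ k : E → V, (univ.filter (fun e => k e = v)).card =
        (M.filter (fun e => k e = v)).card + (Mᶜ.filter (fun e => k e = v)).card := by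
      intro k
      rw [← Finset.card_union_of_disjoint]
      · rw [← Finset.filter_union, Finset.union_compl]
      · exact Finset.disjoint_filter_filter (disjoint_compl_right)
    rw [h3, h3] at h1
    omega
  · intro X hX
    have hXT : X ∈ T := by rw [hT, Finset.mem_filter]; exact ⟨Finset.mem_univ _, hX⟩
    have h2 : ((G.cut X ∩ M).card : ℝ) - 1 ≤ ∑ X ∈ T, (((G.cut X ∩ M).card : ℝ) - 1) :=
      Finset.single_le_sum (f := fun X => ((G.cut X ∩ M).card : ℝ) - 1)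
        (fun X hX => hpos X (hTodd X hX)) hXT
    have h3 : ((G.cut X ∩ M).card : ℝ) < 2 := by
      by_contra hcon
      have h7 : (1 : ℝ) ≤ ∑ X ∈ T, (((G.cut X ∩ M).card : ℝ) - 1) := by linarith
      have h8 : Q + 1 ≤ (Q + 1) * ∑ X ∈ T, (((G.cut X ∩ M).card : ℝ) - 1) :=
        le_mul_of_one_le_right (by linarith) h7
      linarith
    have h4 : (G.cut X ∩ M).card < 2 := by exact_mod_cast h3
    rw [Finset.nonempty_iff_ne_empty]
    intro h5
    have h6 : G.cut X ⊆ M := by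
      intro e he
      by_contra hne
      have : e ∈ G.cut X ∩ Mᶜ := Finset.mem_inter.2 ⟨he, Finset.mem_compl.2 hne⟩
      rw [h5] at this
      exact absurd this (Finset.notMem_empty _)
    rw [Finset.inter_eq_left.2 h6, hX] at h4
    omega
  · have h2 : ∑ S ∈ Z.filter (fun S => G.cut S ∩ Mᶜ = ∅), y S ≤
        ∑ S ∈ Z, a S * (((G.cut S ∩ M).card : ℝ) - 1) := by
      have e1 : ∑ S ∈ Z.filter (fun S => G.cut S ∩ Mᶜ = ∅), y S =
          ∑ S ∈ Z.filter (fun S => G.cut S ∩ Mᶜ = ∅), a S * (((G.cut S ∩ M).card : ℝ) - 1) := by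
        refine Finset.sum_congr rfl fun S hS => ?_
        rw [Finset.mem_filter] at hS
        have h6 : G.cut S ⊆ M := by
          intro e he
          by_contra hne
          have : e ∈ G.cut S ∩ Mᶜ := Finset.mem_inter.2 ⟨he, Finset.mem_compl.2 hne⟩
          rw [hS.2] at this
          exact absurd this (Finset.notMem_empty _)
        rw [Finset.inter_eq_left.2 h6, ha]
        have h3 := hd S hS.1
        have h1 : ((G.cut S).card : ℝ) - 1 ≠ 0 := by
          intro h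
          linarith
        field_simp
      rw [e1]
      exact Finset.sum_le_sum_of_subset_of_nonneg (Finset.filter_subset _ _)
        fun S hS _ => mul_nonneg (ha0 S hS) (hpos S (hZ S hS))
    have h3 : 0 ≤ (Q + 1) * ∑ X ∈ T, (((G.cut X ∩ M).card : ℝ) - 1) :=
      mul_nonneg (by linarith) hB
    linarith

end Pool.Agent.Q253.OC
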