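import Pool.Agent.Q253.OC.Avg

/-!
# `1/2`-flow-pairs and transversals of odd circuits
-/

set_option autoImplicit false
set_option linter.unusedSectionVars false

namespace Pool.Agent.Q253.OC

open Finset Pool.Agent.H160R2.HF Pool.Agent.TH583.FO

variable {V E : Type} [Fintype V] [Fintype E] [DecidableEq V] [DecidableEq E]

/-- `C` is the edge set of an odd circuit with the vertex set `S` which lies in a 2-factor -/
def OddCircuit (G : OrGraph V E) (S : Finset V) (C : Finset E) : Prop :=
  Odd S.card ∧ (∀ v, G.deg C v = if v ∈ S then 2 else 0) ∧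
    (∀ u ∈ S, ∀ v ∈ S, (G.sub C).Reachable u v) ∧ ∃ F, G.IsTwoFactor F ∧ C ⊆ F

/-- the vertex sets of the odd circuits -/
noncomputable def sets (G : OrGraph V E) : Finset (Finset V) := by
  classical
  exact univ.filter fun S => ∃ C, OddCircuit G S C

theorem mem_sets {G : OrGraph V E} {S : Finset V} : S ∈ sets G ↔ ∃ C, OddCircuit G S C := by
  classical
  unfold sets
  rw [mem_filter]
  exact ⟨fun h => h.2, fun h => ⟨mem_univ _, h⟩⟩

/-- the edges of the component `S` -/
def cmp (G : OrGraph V E) (F : Finset E) (S : Finset V) : Finset E := F.filter (fun e => G.t e ∈ S)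

theorem inner {G : OrGraph V E} {F : Finset E} {S : Finset V} (h : G.cut S ∩ F = ∅) {e : E}
    (he : e ∈ F) : G.t e ∈ S ↔ G.h e ∈ S := by
  by_contra hcon
  have : e ∈ G.cut S ∩ F := mem_inter.2 ⟨by unfold OrGraph.cut; exact mem_filter.2 ⟨mem_univ _, hcon⟩, he⟩
  rw [h] at this
  exact absurd this (notMem_empty _)

theorem comp (G : OrGraph V E) (hl : ∀ e, G.t e ≠ G.h e) {F : Finset E} (hF : G.IsTwoFactor F)
    {S : Finset V} (hS : S ∈ oddSets G F) : OddCircuit G S (cmp G F S) := by
  obtain ⟨ho, c, hcs⟩ := mem_oddSets.1 hS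
  have hcut := cut_comp G hl c hcs
  refine ⟨ho, fun v => ?_, fun u hu v hv => ?_, F, hF, filter_subset _ _⟩
  · unfold cmp OrGraph.deg
    rw [filter_filter, filter_filter]
    split_ifs with h
    · have h1 := hF v
      unfold OrGraph.deg at h1
      have e1 : F.filter (fun e => G.t e ∈ S ∧ G.t e = v) = F.filter (fun e => G.t e = v) := by
        refine filter_congr fun e _ => ?_
        constructor
        · exact fun h2 => h2.2
        · exact fun h2 => ⟨h2 ▸ h, h2⟩
      have e2 : F.filter (fun e => G.t e ∈ S ∧ G.h e = v) = F.filter (fun e => G.h e = v) := by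
        refine filter_congr fun e he => ?_
        constructor
        · exact fun h2 => h2.2
        · exact fun h2 => ⟨(inner hcut he).2 (h2 ▸ h), h2⟩
      rw [e1, e2]
      exact h1
    · rw [filter_false_of_mem, filter_false_of_mem]
      · simp
      · rintro e he ⟨h2, h3⟩
        exact h (h3 ▸ (inner hcut he).1 h2)
      · rintro e _ ⟨h2, h3⟩
        exact h (h3 ▸ h2)
  · have hm : ∀ v, v ∈ S ↔ (G.sub F).connectedComponentMk v = c := by
      intro v
      rw [← mem_coe, ← hcs, SimpleGraph.ConnectedComponent.mem_supp_iff]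
    have hr : (G.sub F).Reachable u v :=
      SimpleGraph.ConnectedComponent.exact (((hm u).1 hu).trans ((hm v).1 hv).symm)
    obtain ⟨p⟩ := hr
    clear hv
    induction p with
    | nil => exact SimpleGraph.Reachable.refl _
    | @cons x y z hadj p ih =>
      have hxy : (G.sub (cmp G F S)).Adj x y := by
        unfold OrGraph.sub at hadj ⊢
        rw [SimpleGraph.fromRel_adj] at hadj ⊢
        refine ⟨hadj.1, ?_⟩
        rcases hadj.2 with ⟨e, he, h1, h2⟩ | ⟨e, he, h1, h2⟩
        · left
          exact ⟨e, mem_filter.2 ⟨he, by rw [h1]; exact hu⟩, h1, h2⟩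
        · right
          exact ⟨e, mem_filter.2 ⟨he, (inner hcut he).2 (by rw [h2]; exact hu)⟩, h1, h2⟩
      have hy : y ∈ S := by
        rw [hm] at hu ⊢
        rw [← hu]
        exact (SimpleGraph.ConnectedComponent.sound hadj.reachable).symm
      exact hxy.reachable.trans (ih hy)

theorem disj (G : OrGraph V E) {F : Finset E} {S S' : Finset V} (hS : S ∈ oddSets G F)
    (hS' : S' ∈ oddSets G F) (hne : S ≠ S') : Disjoint (cmp G F S) (cmp G F S') := by
  obtain ⟨_, c, hcs⟩ := mem_oddSets.1 hS
  obtain ⟨_, c', hcs'⟩ := mem_oddSets.1 hS'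
  rw [disjoint_left]
  intro e he he'
  have h1 : G.t e ∈ c.supp := by
    rw [hcs]
    exact (mem_filter.1 he).2
  have h2 : G.t e ∈ c'.supp := by
    rw [hcs']
    exact (mem_filter.1 he').2
  rw [SimpleGraph.ConnectedComponent.mem_supp_iff] at h1 h2
  apply hne
  have h3 : c = c' := h1.symm.trans h2
  rw [h3, hcs'] at hcs
  exact (coe_injective hcs).symm

/-- **Main theorem.** -/
theorem main (G : OrGraph V E) (hc : G.Cubic) (hb : G.Bridgeless) (t : ℕ)
    (hcon : t = 1 ∨ ∀ X : Finset V, G.HasCycleIn X → G.HasCycleIn Xᶜ →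
      5 * t - 1 ≤ (G.cut X).card)
    (w : E → ℝ) (hw : ∀ e, 0 ≤ w e) (y : Finset V → ℝ) (hy : ∀ S, 0 ≤ y S)
    (h1 : ∀ S C, OddCircuit G S C → 1 ≤ ∑ e ∈ C, w e + y S)
    (h2 : 2 / 3 * ∑ e, w e + ∑ S ∈ sets G,
      y S * ((((G.cut S).card : ℝ) - 3) / (3 * ((G.cut S).card - 1))) < 2 * t + 2) :
    ∃ φ₂ φ₄ : E → ℤ, G.IsHalfFlowPair φ₂ φ₄ := by
  classical
  have hl := noloop G hc hb
  obtain ⟨F, hF, h3, hle⟩ := avg2 G hc hb (sets G) (fun S hS => by
    obtain ⟨C, hC⟩ := mem_sets.1 hS
    exact hC.1) y hy w hw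
  have k1 : ((oddSets G F).card : ℝ) ≤ ∑ S ∈ oddSets G F, (∑ e ∈ cmp G F S, w e + y S) := by
    rw [card_eq_sum_ones, Nat.cast_sum]
    refine sum_le_sum fun S hS => ?_
    rw [Nat.cast_one]
    exact h1 S _ (comp G hl hF hS)
  have k2 : ∑ S ∈ oddSets G F, ∑ e ∈ cmp G F S, w e ≤ ∑ e ∈ F, w e := by
    rw [← sum_biUnion]
    · refine sum_le_sum_of_subset_of_nonneg ?_ fun e _ _ => hw e
      exact biUnion_subset.2 fun S _ => filter_subset _ _
    · intro S hS S' hS' hne
      exact disj G hS hS' hne
  have k3 : ∑ S ∈ oddSets G F, y S ≤ ∑ S ∈ (sets G).filter (fun S => G.cut S ∩ F = ∅), y S := by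
    refine sum_le_sum_of_subset_of_nonneg ?_ fun S _ _ => hy S
    intro S hS
    obtain ⟨_, c, hcs⟩ := mem_oddSets.1 hS
    exact mem_filter.2 ⟨mem_sets.2 ⟨_, comp G hl hF hS⟩, cut_comp G hl c hcs⟩
  rw [sum_add_distrib] at k1
  have k4 : ((oddSets G F).card : ℝ) < 2 * t + 2 := by linarith
  have k5 : (oddSets G F).card < 2 * t + 2 := by exact_mod_cast k4
  have k6 := oddCount_le G F
  obtain ⟨m, hm⟩ := even_oddCount G hc F
  obtain ⟨φ₂, φ₄, h, _⟩ := good G hc hb t hcon F hF h3 (by omega)
  exact ⟨φ₂, φ₄, h⟩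

/-- the vertex sets of the odd circuits avoiding `B` -/
noncomputable def avoiding (G : OrGraph V E) (B : Finset E) : Finset (Finset V) := by
  classical
  exact univ.filter fun S => ∃ C, OddCircuit G S C ∧ Disjoint C B

theorem mem_avoiding {G : OrGraph V E} {B : Finset E} {S : Finset V} :
    S ∈ avoiding G B ↔ ∃ C, OddCircuit G S C ∧ Disjoint C B := by
  classical
  unfold avoiding
  rw [mem_filter]
  exact ⟨fun h => h.2, fun h => ⟨mem_univ _, h⟩⟩

/-- **Edges meeting most odd circuits.** -/
theorem edges (G : OrGraph V E) (hc : G.Cubic) (hb : G.Bridgeless) (t : ℕ)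
    (hcon : t = 1 ∨ ∀ X : Finset V, G.HasCycleIn X → G.HasCycleIn Xᶜ →
      5 * t - 1 ≤ (G.cut X).card)
    (B : Finset E) (hB : B.card ≤ 3 * t + 2) (hN : 2 * B.card + (avoiding G B).card ≤ 6 * t + 6) :
    ∃ φ₂ φ₄ : E → ℤ, G.IsHalfFlowPair φ₂ φ₄ := by
  classical
  refine main G hc hb t hcon (fun e => if e ∈ B then 1 else 0) (fun e => by positivity)
    (fun S => if S ∈ avoiding G B then 1 else 0) (fun S => by positivity) ?_ ?_
  · intro S C hC
    by_cases hd : Disjoint C B
    · rw [if_pos (mem_avoiding.2 ⟨C, hC, hd⟩)]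
      have : (0 : ℝ) ≤ ∑ e ∈ C, (if e ∈ B then (1 : ℝ) else 0) :=
        sum_nonneg fun e _ => by positivity
      linarith
    · rw [not_disjoint_iff] at hd
      obtain ⟨e, he, heB⟩ := hd
      have h1 : (1 : ℝ) ≤ ∑ e ∈ C, (if e ∈ B then (1 : ℝ) else 0) := by
        refine le_trans ?_ (single_le_sum (f := fun e => if e ∈ B then (1 : ℝ) else 0)
          (fun e _ => by positivity) he)
        simp [heB]
      have h2 : (0 : ℝ) ≤ (if S ∈ avoiding G B then (1 : ℝ) else 0) := by positivity
      linarith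
  · have hodd : ∀ S ∈ sets G, Odd S.card := fun S hS => by
      obtain ⟨C, hC⟩ := mem_sets.1 hS
      exact hC.1
    have hsub : avoiding G B ⊆ sets G := by
      intro S hS
      obtain ⟨C, hC, _⟩ := mem_avoiding.1 hS
      exact mem_sets.2 ⟨C, hC⟩
    have e1 : ∑ e, (if e ∈ B then (1 : ℝ) else 0) = B.card := by
      rw [sum_boole]
      simp
    have e2 : ∑ S ∈ sets G, (if S ∈ avoiding G B then (1 : ℝ) else 0) *
        ((((G.cut S).card : ℝ) - 3) / (3 * ((G.cut S).card - 1))) =
        ∑ S ∈ avoiding G B, (((G.cut S).card : ℝ) - 3) / (3 * ((G.cut S).card - 1)) := by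
      rw [← sum_subset hsub]
      · refine sum_congr rfl fun S hS => ?_
        rw [if_pos hS, one_mul]
      · intro S _ hS
        rw [if_neg hS, zero_mul]
    rw [e1, e2]
    have hB' : (B.card : ℝ) ≤ 3 * t + 2 := by exact_mod_cast hB
    rcases (avoiding G B).eq_empty_or_nonempty with he | hne
    · rw [he, sum_empty]
      linarith
    · have h5 : ∑ S ∈ avoiding G B, (((G.cut S).card : ℝ) - 3) / (3 * ((G.cut S).card - 1)) <
          ∑ S ∈ avoiding G B, (1 / 3 : ℝ) := by
        refine sum_lt_sum_of_nonempty hne fun S hS => ?_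
        have h5 : (3 : ℝ) ≤ (G.cut S).card := by
          exact_mod_cast cut_three G hc hb S (hodd S (hsub hS))
        rw [div_lt_div_iff₀ (by linarith) (by norm_num)]
        linarith
      rw [sum_const, nsmul_eq_mul] at h5
      have h6 : 2 * (B.card : ℝ) + (avoiding G B).card ≤ 6 * t + 6 := by exact_mod_cast hN
      linarith

/-- a circuit with edges between different sides is even -/
theorem no_odd (G : OrGraph V E) {S : Finset V} {C : Finset E} (h : OddCircuit G S C)
    (s : V → Bool) (hs : ∀ e ∈ C, s (G.t e) ≠ s (G.h e)) : False := by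
  obtain ⟨ho, hd, _, _⟩ := h
  have hin : ∀ e ∈ C, G.t e ∈ S ∧ G.h e ∈ S := by
    intro e he
    constructor
    · by_contra hcon
      have h1 := hd (G.t e)
      rw [if_neg hcon] at h1
      unfold OrGraph.deg at h1
      have h2 : 0 < (C.filter (fun e' => G.t e' = G.t e)).card :=
        card_pos.2 ⟨e, mem_filter.2 ⟨he, rfl⟩⟩
      omega
    · by_contra hcon
      have h1 := hd (G.h e)
      rw [if_neg hcon] at h1
      unfold OrGraph.deg at h1
      have h2 : 0 < (C.filter (fun e' => G.h e' = G.h e)).card :=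
        card_pos.2 ⟨e, mem_filter.2 ⟨he, rfl⟩⟩
      omega
  have key : ∀ b : Bool, 2 * (S.filter (fun v => s v = b)).card = C.card := by
    intro b
    have h1 := G.handshake C (S.filter (fun v => s v = b))
    have h2 : ∑ v ∈ S.filter (fun v => s v = b), G.deg C v =
        2 * (S.filter (fun v => s v = b)).card := by
      rw [sum_congr rfl (g := fun _ => 2), sum_const, smul_eq_mul, mul_comm]
      intro v hv
      rw [hd v, if_pos (mem_filter.1 hv).1]
    have h3 : C.filter (fun e => G.t e ∈ S.filter (fun v => s v = b) ∧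
        G.h e ∈ S.filter (fun v => s v = b)) = ∅ := by
      rw [filter_eq_empty_iff]
      rintro e he ⟨h4, h5⟩
      exact hs e he ((mem_filter.1 h4).2.trans (mem_filter.1 h5).2.symm)
    have h4 : G.cut (S.filter (fun v => s v = b)) ∩ C = C := by
      rw [inter_eq_right]
      intro e he
      unfold OrGraph.cut
      rw [mem_filter]
      refine ⟨mem_univ _, ?_⟩
      rw [mem_filter, mem_filter]
      have h5 := hin e he
      have h6 := hs e he
      intro h7
      have h8 : (s (G.t e) = b) ↔ (s (G.h e) = b) :=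
        ⟨fun h => (h7.1 ⟨h5.1, h⟩).2, fun h => (h7.2 ⟨h5.2, h⟩).2⟩
      revert h6 h8
      cases s (G.t e) <;> cases s (G.h e) <;> cases b <;> simp
    rw [h2, h3, h4] at h1
    simpa using h1
  have h1 := key true
  have h2 := key false
  have h3 : (S.filter (fun v => s v = true)).card + (S.filter (fun v => s v = false)).card =
      S.card := by
    rw [← card_filter_add_card_filter_not (s := S) (fun v => s v = true)]
    congr 2
    refine filter_congr fun v _ => ?_
    simp
  obtain ⟨m, hm⟩ := ho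
  omega

/-- **Vertices meeting all odd circuits.** -/
theorem vertices (G : OrGraph V E) (hc : G.Cubic) (hb : G.Bridgeless) (t : ℕ)
    (hcon : t = 1 ∨ ∀ X : Finset V, G.HasCycleIn X → G.HasCycleIn Xᶜ →
      5 * t - 1 ≤ (G.cut X).card)
    (T : Finset V) (hT : T.card ≤ 3 * t + 2) (s : V → Bool)
    (hs : ∀ e, G.t e ∉ T → G.h e ∉ T → s (G.t e) ≠ s (G.h e)) :
    ∃ φ₂ φ₄ : E → ℤ, G.IsHalfFlowPair φ₂ φ₄ := by
  classical
  have hl := noloop G hc hb
  let bad : (V → Bool) → Finset E := fun s => univ.filter (fun e => s (G.t e) = s (G.h e))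
  let P : (V → Bool) → Prop := fun s => ∀ e, G.t e ∉ T → G.h e ∉ T → s (G.t e) ≠ s (G.h e)
  obtain ⟨s0, hs0, hmin⟩ := exists_min_image (univ.filter (fun s => P s)) (fun s => (bad s).card)
    ⟨s, mem_filter.2 ⟨mem_univ _, hs⟩⟩
  have hP := (mem_filter.1 hs0).2
  have hone : ∀ v ∈ T, (bad s0 ∩ G.cut {v}).card ≤ 1 := by
    intro v hv
    let s1 : V → Bool := Function.update s0 v (!(s0 v))
    have hs1 : P s1 := by
      intro e h1 h2
      have h3 : G.t e ≠ v := fun h => h1 (h ▸ hv)
      have h4 : G.h e ≠ v := fun h => h2 (h ▸ hv)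
      change Function.update s0 v (!(s0 v)) (G.t e) ≠ Function.update s0 v (!(s0 v)) (G.h e)
      rw [Function.update_of_ne h3, Function.update_of_ne h4]
      exact hP e h1 h2
    have h1 := hmin s1 (mem_filter.2 ⟨mem_univ _, hs1⟩)
    have hcut : ∀ e, e ∈ G.cut {v} ↔ (G.t e = v ∨ G.h e = v) := by
      intro e
      unfold OrGraph.cut
      rw [mem_filter, mem_singleton, mem_singleton]
      have := hl e
      constructor
      · rintro ⟨_, h⟩
        tauto
      · rintro (h | h)
        · exact ⟨mem_univ _, fun h' => this (h.trans (h'.1 h).symm)⟩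
        · exact ⟨mem_univ _, fun h' => this ((h'.2 h).trans h.symm)⟩
    have hb1 : bad s1 = (bad s0 \ G.cut {v}) ∪ (G.cut {v} \ bad s0) := by
      ext e
      rw [mem_union, mem_sdiff, mem_sdiff, hcut]
      have hme : e ∈ bad s1 ↔ s1 (G.t e) = s1 (G.h e) := by simp [bad]
      have hme0 : e ∈ bad s0 ↔ s0 (G.t e) = s0 (G.h e) := by simp [bad]
      rw [hme, hme0]
      have h5 := hl e
      by_cases h3 : G.t e = v
      · have h4 : G.h e ≠ v := fun h => h5 (h3.trans h.symm)
        have e1 : s1 (G.t e) = !(s0 v) := by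
          rw [h3]
          exact Function.update_self _ _ _
        have e2 : s1 (G.h e) = s0 (G.h e) := Function.update_of_ne h4 _ _
        rw [e1, e2, h3]
        cases s0 v <;> cases s0 (G.h e) <;> simp
      · by_cases h4 : G.h e = v
        · have e1 : s1 (G.h e) = !(s0 v) := by
            rw [h4]
            exact Function.update_self _ _ _
          have e2 : s1 (G.t e) = s0 (G.t e) := Function.update_of_ne h3 _ _
          rw [e1, e2, h4]
          cases s0 v <;> cases s0 (G.t e) <;> simp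
        · have e1 : s1 (G.h e) = s0 (G.h e) := Function.update_of_ne h4 _ _
          have e2 : s1 (G.t e) = s0 (G.t e) := Function.update_of_ne h3 _ _
          rw [e1, e2]
          tauto
    have hdis : Disjoint (bad s0 \ G.cut {v}) (G.cut {v} \ bad s0) := by
      rw [disjoint_left]
      intro e he he'
      exact (mem_sdiff.1 he).2 (mem_sdiff.1 he').1
    have h2 : (bad s0).card ≤ (bad s1).card := h1
    rw [hb1, card_union_of_disjoint hdis] at h2
    have h3 := card_inter_add_card_sdiff (bad s0) (G.cut {v})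
    have h4 := card_inter_add_card_sdiff (G.cut {v}) (bad s0)
    have h5 := cut_one G hc hb v
    rw [inter_comm] at h4
    omega
  have hcard : (bad s0).card ≤ T.card := by
    have h1 : bad s0 ⊆ T.biUnion (fun v => bad s0 ∩ G.cut {v}) := by
      intro e he
      have h2 : s0 (G.t e) = s0 (G.h e) := (mem_filter.1 he).2
      have h3 := hP e
      have h5 := hl e
      rw [mem_biUnion]
      by_cases h4 : G.t e ∈ T
      · refine ⟨_, h4, mem_inter.2 ⟨he, ?_⟩⟩
        unfold OrGraph.cut
        rw [mem_filter, mem_singleton, mem_singleton]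
        exact ⟨mem_univ _, fun h => h5 (h.1 rfl).symm⟩
      · by_cases h6 : G.h e ∈ T
        · refine ⟨_, h6, mem_inter.2 ⟨he, ?_⟩⟩
          unfold OrGraph.cut
          rw [mem_filter, mem_singleton, mem_singleton]
          exact ⟨mem_univ _, fun h => h5 (h.2 rfl)⟩
        · exact absurd h2 (h3 h4 h6)
    refine (card_le_card h1).trans (card_biUnion_le.trans ?_)
    refine (sum_le_sum hone).trans ?_
    rw [sum_const, smul_eq_mul, mul_one]
  have hav : avoiding G (bad s0) = ∅ := by
    rw [eq_empty_iff_forall_notMem]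
    intro S hS
    obtain ⟨C, hC, hd⟩ := mem_avoiding.1 hS
    refine no_odd G hC s0 fun e he h => ?_
    exact disjoint_left.1 hd he (mem_filter.2 ⟨mem_univ _, h⟩)
  refine edges G hc hb t hcon (bad s0) (hcard.trans hT) ?_
  rw [hav, card_empty]
  omega

end Pool.Agent.Q253.OC
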